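import Pool.Agent.H30.EVD.Conv

/-!
# MP_d89f1e_an: approximation by entire maps with a fixed image fails in every dimension

For every `n ≥ 2` the normalised injective holomorphic maps `f` of the unit ball of `ℂⁿ` which are not
locally uniform limits of injective entire maps with a common range are dense.
-/

set_option autoImplicit false

open Metric Set Filter

namespace Pool.Agent.Results.MP_d89f1e_an.EveryDimension

open Pool.Agent.H30.EVD

/-- `E` is `ℂⁿ`, `n ≥ 2`. -/
theorem result (E : Type) [NormedAddCommGroup E] [InnerProductSpace ℂ E]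
    (hE : 2 ≤ Module.finrank ℂ E) (F : E → E) (hF : InS F) (r ε : ℝ) (hr : r < 1) (hε : 0 < ε) :
    ∃ f : E → E,
      InS f ∧ ContinuousOn f (closedBall 0 1) ∧ InjOn f (closedBall 0 1) ∧
      (∀ z, ‖z‖ ≤ r → ‖f z - F z‖ < ε) ∧
      ¬ IsRunge (f '' ball 0 1) ∧
      (∀ Ω, IsOpen Ω → IsConnected Ω → f '' ball 0 1 ⊂ Ω → ¬ RungePair (f '' ball 0 1) Ω) ∧
      ¬ CommonRangeLimit f :=
  main E hE F hF r ε hr hε

end Pool.Agent.Results.MP_d89f1e_an.EveryDimension
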